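import Mathlib

/-! MP_3abf0f_al: harmonious listings of groups `⟨a, b | a^{2h} = b² = 1, b a b⁻¹ = a^{h-1}⟩`. -/

namespace Pool.Agent.X239.SD

/-- The index following `i` in the cyclic order `0, 1, …, m-1, 0`. -/
def next {m : ℕ} (i : Fin m) : Fin m := ⟨(i.val + 1) % m, Nat.mod_lt _ (by have := i.2; omega)⟩

/-- A group of order `m` is harmonious if its elements can be listed as `g_0, …, g_{m-1}` so that
the `m` products of cyclically consecutive elements are pairwise distinct. -/
def Harmonious (G : Type*) [Group G] : Prop :=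
  ∃ g : Fin (Nat.card G) ≃ G, Function.Injective fun k => g k * g (next k)

section
variable {G : Type*} [Group G] (a b : G)

/-- `a^i b^e`. -/
def T (i : ℤ) (e : Bool) : G := a ^ i * (if e then b else 1)

variable {a b} {N h : ℕ}

theorem b_mul_zpow (hab : b * a * b⁻¹ = a ^ (h - 1)) (hh : 1 ≤ h) (x : ℤ) :
    b * a ^ x = a ^ (((h : ℤ) - 1) * x) * b := by
  have h1 : b * a ^ x * b⁻¹ = (a ^ (h - 1)) ^ x := by rw [← hab, conj_zpow]
  have h2 : ((a ^ (h - 1)) ^ x : G) = a ^ (((h : ℤ) - 1) * x) := by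
    rw [← zpow_natCast a (h - 1), ← zpow_mul]
    congr 1
    push_cast [hh]
    ring
  rw [h2] at h1
  rw [← h1]
  group

theorem T_mul (hb : b ^ 2 = 1) (hab : b * a * b⁻¹ = a ^ (h - 1)) (hh : 1 ≤ h) (i x : ℤ)
    (e f : Bool) :
    T a b i e * T a b x f = T a b (i + (if e then ((h : ℤ) - 1) * x else x)) (xor e f) := by
  have hbb : b * b = 1 := by rw [← sq]; exact hb
  cases e <;> cases f
  · simp [T, zpow_add]
  · simp [T, zpow_add, mul_assoc]
  · simp only [T, if_true, zpow_add, Bool.xor_false, Bool.false_eq_true, if_false, mul_one]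
    rw [mul_assoc, b_mul_zpow hab hh, mul_assoc]
  · simp only [T, if_true, zpow_add, Bool.xor_self, Bool.false_eq_true, if_false, mul_one]
    rw [mul_assoc, ← mul_assoc b, b_mul_zpow hab hh, mul_assoc (a ^ (((h : ℤ) - 1) * x)), hbb,
      mul_one]

theorem T_eq (haN : a ^ N = 1) {i j : ℤ} (hd : (N : ℤ) ∣ i - j) (e : Bool) :
    T a b i e = T a b j e := by
  obtain ⟨c, hc⟩ := hd
  have : i = j + N * c := by linarith
  rw [this]
  simp [T, zpow_add, zpow_mul, haN]

theorem T_inj (ha : ∀ i : ℤ, a ^ i = 1 → (N : ℤ) ∣ i) (hnb : ∀ i : ℤ, b ≠ a ^ i) {i j : ℤ}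
    {e f : Bool} (h : T a b i e = T a b j f) : e = f ∧ (N : ℤ) ∣ i - j := by
  cases e <;> cases f
  · refine ⟨rfl, ha _ ?_⟩
    simp only [T, Bool.false_eq_true, if_false, mul_one] at h
    rw [zpow_sub, h, mul_inv_cancel]
  · exfalso
    simp only [T, Bool.false_eq_true, if_false, mul_one, if_true] at h
    apply hnb (i - j)
    rw [sub_eq_neg_add, zpow_add, h, zpow_neg]; group
  · exfalso
    simp only [T, Bool.false_eq_true, if_false, mul_one, if_true] at h
    apply hnb (j - i)
    rw [sub_eq_neg_add, zpow_add, ← h, zpow_neg]; group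
  · refine ⟨rfl, ha _ ?_⟩
    simp only [T, if_true] at h
    rw [zpow_sub, mul_right_cancel h, mul_inv_cancel]

theorem T_surj (hb : b ^ 2 = 1) (hab : b * a * b⁻¹ = a ^ (h - 1)) (hh : 1 ≤ h)
    (hcl : Subgroup.closure {a, b} = ⊤) (x : G) : ∃ i e, x = T a b i e := by
  have hx : x ∈ Subgroup.closure {a, b} := by rw [hcl]; trivial
  induction hx using Subgroup.closure_induction with
  | mem x hx =>
    rcases hx with rfl | hx
    · exact ⟨1, false, by simp [T]⟩
    · rw [Set.mem_singleton_iff] at hx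
      subst hx
      exact ⟨0, true, by simp [T]⟩
  | one => exact ⟨0, false, by simp [T]⟩
  | mul x y _ _ hx hy =>
    obtain ⟨i, e, rfl⟩ := hx
    obtain ⟨j, f, rfl⟩ := hy
    exact ⟨_, _, T_mul hb hab hh i j e f⟩
  | inv x _ hx =>
    obtain ⟨i, e, rfl⟩ := hx
    cases e
    · exact ⟨-i, false, by simp [T]⟩
    · refine ⟨((h : ℤ) - 1) * (-i), true, ?_⟩
      have hb' : b⁻¹ = b := by
        rw [inv_eq_iff_mul_eq_one, ← sq]; exact hb
      simp only [T, if_true, mul_inv_rev]
      rw [hb', ← zpow_neg, b_mul_zpow hab hh]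

/-- The data of a harmonious listing in coordinates. -/
structure Listing (N h : ℕ) where
  I : ℕ → ℤ
  E : ℕ → Bool
  J : ℕ → ℤ
  F : ℕ → Bool
  inj : ∀ k l, k < 2 * N → l < 2 * N → E k = E l → (N : ℤ) ∣ I k - I l → k = l
  prodF : ∀ k, k < 2 * N → F k = xor (E k) (E ((k + 1) % (2 * N)))
  prodJ : ∀ k, k < 2 * N → (N : ℤ) ∣
    (I k + (if E k then ((h : ℤ) - 1) * I ((k + 1) % (2 * N)) else I ((k + 1) % (2 * N)))) - J k
  injJ : ∀ k l, k < 2 * N → l < 2 * N → F k = F l → (N : ℤ) ∣ J k - J l → k = l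

theorem harmonious_of_listing (hN : 0 < N) (haN : a ^ N = 1)
    (ha : ∀ i : ℤ, a ^ i = 1 → (N : ℤ) ∣ i) (hb : b ^ 2 = 1)
    (hab : b * a * b⁻¹ = a ^ (h - 1)) (hh : 1 ≤ h) (hnb : ∀ i : ℤ, b ≠ a ^ i)
    (hcl : Subgroup.closure {a, b} = ⊤) (L : Listing N h) :
    Nat.card G = 2 * N ∧ Harmonious G := by
  classical
  -- the cardinality
  have hbij : Function.Bijective (fun p : Fin N × Bool => T a b ((p.1.val : ℕ) : ℤ) p.2) := by
    constructor
    · intro p q hpq
      obtain ⟨h1, h2⟩ := T_inj ha hnb hpq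
      have hp := p.1.2
      have hq := q.1.2
      obtain ⟨c, hc⟩ := h2
      have hc0 : c = 0 := by
        have h3 : (N : ℤ) * c < N * 1 := by rw [← hc]; omega
        have h4 : (N : ℤ) * (-1) < N * c := by rw [← hc]; omega
        have h5 : c < 1 := lt_of_mul_lt_mul_left h3 (by omega)
        have h6 : -1 < c := lt_of_mul_lt_mul_left h4 (by omega)
        omega
      rw [hc0, mul_zero] at hc
      ext
      · omega
      · exact congrArg (fun t => t) (by simp [h1])
    · intro x
      obtain ⟨i, e, rfl⟩ := T_surj hb hab hh hcl x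
      have h1 : 0 ≤ i % (N : ℤ) := Int.emod_nonneg _ (by omega)
      have h2 : i % (N : ℤ) < N := Int.emod_lt_of_pos _ (by omega)
      refine ⟨(⟨(i % (N : ℤ)).toNat, by omega⟩, e), ?_⟩
      apply T_eq haN
      have h3 : (((i % (N : ℤ)).toNat : ℕ) : ℤ) = i % N := Int.toNat_of_nonneg h1
      show (N : ℤ) ∣ (((i % (N : ℤ)).toNat : ℕ) : ℤ) - i
      rw [h3]
      exact ⟨-(i / N), by have := Int.emod_add_mul_ediv i N; linarith⟩
  have hcard : Nat.card G = 2 * N := by
    rw [← Nat.card_eq_of_bijective _ hbij, Nat.card_prod, Nat.card_eq_fintype_card,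
      Nat.card_eq_fintype_card, Fintype.card_fin, Fintype.card_bool, mul_comm]
  refine ⟨hcard, ?_⟩
  have : Finite G := Nat.finite_of_card_ne_zero (by omega)
  have : Fintype G := Fintype.ofFinite G
  let g0 : Fin (Nat.card G) → G := fun k => T a b (L.I k.val) (L.E k.val)
  have hg0 : Function.Injective g0 := by
    intro k l hkl
    obtain ⟨h1, h2⟩ := T_inj ha hnb hkl
    exact Fin.ext (L.inj _ _ (by rw [← hcard]; exact k.2) (by rw [← hcard]; exact l.2) h1 h2)
  have hbij0 : Function.Bijective g0 := by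
    rw [Fintype.bijective_iff_injective_and_card]
    exact ⟨hg0, by rw [Fintype.card_fin, Nat.card_eq_fintype_card]⟩
  refine ⟨Equiv.ofBijective g0 hbij0, ?_⟩
  intro k l hkl
  have hk : k.val < 2 * N := by rw [← hcard]; exact k.2
  have hl : l.val < 2 * N := by rw [← hcard]; exact l.2
  have key : ∀ m : Fin (Nat.card G), g0 m * g0 (next m) = T a b (L.J m.val) (L.F m.val) := by
    intro m
    have hm : m.val < 2 * N := by rw [← hcard]; exact m.2
    have e1 : (next m).val = (m.val + 1) % (2 * N) := by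
      exact congrArg (fun t => (m.val + 1) % t) hcard
    simp only [g0, e1]
    rw [T_mul hb hab hh, ← L.prodF m.val hm]
    exact T_eq haN (L.prodJ m.val hm) _
  have hkl' : g0 k * g0 (next k) = g0 l * g0 (next l) := hkl
  rw [key k, key l] at hkl'
  obtain ⟨h1, h2⟩ := T_inj ha hnb hkl'
  exact Fin.ext (L.injJ _ _ hk hl h1 h2)

end

end Pool.Agent.X239.SD
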