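import Pool.Agent.X239.SD.Seq

/-! MP_3abf0f_al: the semidihedral 2-groups as presented groups, and the result. -/

namespace Pool.Agent.X239.SD

/-! ### `N = 8`, `h = 4` -/

def I8 (k : ℕ) : ℤ := ([0, 1, 2, 3, 4, 0, 5, 1, 6, 2, 6, 4, 7, 3, 7, 5] : List ℤ).getD k 0
def E8 (k : ℕ) : Bool := ([false, false, false, false, false, true, false, true, false, true, true,
  true, false, true, true, true] : List Bool).getD k false
def F8 (k : ℕ) : Bool := xor (E8 k) (E8 ((k + 1) % (2 * 8)))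
def J8 (k : ℕ) : ℤ := I8 k + (if E8 k then (((4 : ℕ) : ℤ) - 1) * I8 ((k + 1) % (2 * 8))
  else I8 ((k + 1) % (2 * 8)))

theorem inj8 : ∀ k : Fin 16, ∀ l : Fin 16, E8 k.1 = E8 l.1 → ((8 : ℕ) : ℤ) ∣ I8 k.1 - I8 l.1 →
    k = l := by decide +kernel

theorem injJ8 : ∀ k : Fin 16, ∀ l : Fin 16, F8 k.1 = F8 l.1 → ((8 : ℕ) : ℤ) ∣ J8 k.1 - J8 l.1 →
    k = l := by decide +kernel

/-- The listing for `N = 8`. -/
def listing8 : Listing 8 4 where
  I := I8
  E := E8
  J := J8
  F := F8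
  inj k l hk hl h1 h2 := congrArg Fin.val (inj8 ⟨k, hk⟩ ⟨l, hl⟩ h1 h2)
  prodF _ _ := rfl
  prodJ k _ := by simp [J8]
  injJ k l hk hl h1 h2 := congrArg Fin.val (injJ8 ⟨k, hk⟩ ⟨l, hl⟩ h1 h2)

/-- The relators `a^{2^{n-1}}`, `b²`, `b a b⁻¹ (a^{2^{n-2}-1})⁻¹` in the free group on the two
letters `a = false`, `b = true`. -/
def rels (n : ℕ) : Set (FreeGroup Bool) :=
  {FreeGroup.of false ^ 2 ^ (n - 1), FreeGroup.of true ^ 2,
    FreeGroup.of true * FreeGroup.of false * (FreeGroup.of true)⁻¹ *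
      (FreeGroup.of false ^ (2 ^ (n - 2) - 1))⁻¹}

/-- The semidihedral group `⟨a, b | a^{2^{n-1}} = b² = 1, b a b⁻¹ = a^{2^{n-2}-1}⟩`. -/
abbrev SemiDih (n : ℕ) : Type := PresentedGroup (rels n)

section facts
variable (n : ℕ)

/-- the generators -/
def ga : SemiDih n := PresentedGroup.of false
def gb : SemiDih n := PresentedGroup.of true

theorem ga_pow : ga n ^ 2 ^ (n - 1) = 1 := by
  have := PresentedGroup.one_of_mem (rels := rels n)
    (x := FreeGroup.of false ^ 2 ^ (n - 1)) (by simp [rels])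
  simpa [ga, PresentedGroup.of] using this

theorem gb_sq : gb n ^ 2 = 1 := by
  have := PresentedGroup.one_of_mem (rels := rels n)
    (x := FreeGroup.of true ^ 2) (by simp [rels])
  simpa [gb, PresentedGroup.of] using this

theorem conj_ga : gb n * ga n * (gb n)⁻¹ = ga n ^ (2 ^ (n - 2) - 1) := by
  have := PresentedGroup.one_of_mem (rels := rels n)
    (x := FreeGroup.of true * FreeGroup.of false * (FreeGroup.of true)⁻¹ *
      (FreeGroup.of false ^ (2 ^ (n - 2) - 1))⁻¹) (by simp [rels])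
  rw [← mul_inv_eq_one]
  simpa [gb, ga, PresentedGroup.of] using this

theorem closure_gen : Subgroup.closure {ga n, gb n} = ⊤ := by
  rw [← PresentedGroup.closure_range_of (rels n)]
  congr 1
  ext x
  constructor
  · rintro (rfl | rfl)
    · exact ⟨false, rfl⟩
    · exact ⟨true, rfl⟩
  · rintro ⟨c, rfl⟩
    cases c
    · left; rfl
    · right; rfl

/-- the multiplier `2^{n-2} - 1` modulo `2^{n-1}` -/
def mu : ZMod (2 ^ (n - 1)) := (2 ^ (n - 2) : ZMod (2 ^ (n - 1))) - 1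

theorem mu_sq (hn : 4 ≤ n) : mu n * mu n = 1 := by
  have h0 : ((2 : ZMod (2 ^ (n - 1))) ^ (n - 1)) = 0 := by
    have := ZMod.natCast_self (2 ^ (n - 1))
    push_cast at this
    exact this
  have h1 : (2 : ZMod (2 ^ (n - 1))) ^ (n - 2) * 2 ^ (n - 2) = 0 := by
    rw [← pow_add, show n - 2 + (n - 2) = (n - 1) + (n - 3) by omega, pow_add, h0, zero_mul]
  have h2 : (2 : ZMod (2 ^ (n - 1))) ^ (n - 2) * 2 = 0 := by
    rw [← pow_succ, show n - 2 + 1 = n - 1 by omega, h0]
  have : mu n * mu n = 2 ^ (n - 2) * 2 ^ (n - 2) - 2 ^ (n - 2) * 2 + 1 := by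
    simp only [mu]; ring
  rw [this, h1, h2]; ring

/-- `x ↦ x + 1` -/
def pa : Equiv.Perm (ZMod (2 ^ (n - 1))) := Equiv.addRight 1

/-- `x ↦ μ x` -/
def pb (hn : 4 ≤ n) : Equiv.Perm (ZMod (2 ^ (n - 1))) where
  toFun x := mu n * x
  invFun x := mu n * x
  left_inv x := by show mu n * (mu n * x) = x; rw [← mul_assoc, mu_sq n hn, one_mul]
  right_inv x := by show mu n * (mu n * x) = x; rw [← mul_assoc, mu_sq n hn, one_mul]

theorem pa_pow (i : ℕ) (x : ZMod (2 ^ (n - 1))) : (pa n ^ i) x = x + i := by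
  induction i generalizing x with
  | zero => simp
  | succ i ih =>
    rw [pow_succ, Equiv.Perm.mul_apply, ih]
    simp [pa]; ring

theorem pa_zpow (i : ℤ) (x : ZMod (2 ^ (n - 1))) : (pa n ^ i) x = x + i := by
  cases i with
  | ofNat i => simpa using pa_pow n i x
  | negSucc i =>
    rw [zpow_negSucc, Equiv.Perm.inv_eq_iff_eq, pa_pow]
    push_cast; ring

def hom (hn : 4 ≤ n) : SemiDih n →* Equiv.Perm (ZMod (2 ^ (n - 1))) :=
  PresentedGroup.toGroup (f := fun c => if c then pb n hn else pa n) (by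
    intro r hr
    rcases hr with rfl | rfl | rfl
    · simp only [map_pow, FreeGroup.lift_apply_of, Bool.false_eq_true, if_false]
      ext x
      rw [pa_pow]
      have := ZMod.natCast_self (2 ^ (n - 1))
      rw [this]; simp
    · simp only [map_pow, FreeGroup.lift_apply_of, if_true]
      ext x
      rw [sq, Equiv.Perm.mul_apply]
      show mu n * (mu n * x) = x
      rw [← mul_assoc, mu_sq n hn, one_mul]
    · simp only [map_mul, map_inv, map_pow, FreeGroup.lift_apply_of, Bool.false_eq_true, if_false,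
        if_true]
      rw [mul_inv_eq_one]
      ext x
      rw [Equiv.Perm.mul_apply, Equiv.Perm.mul_apply, pa_pow]
      show mu n * (pa n (mu n * x)) = _
      show mu n * (mu n * x + 1) = _
      rw [mul_add, ← mul_assoc, mu_sq n hn]
      have : 1 ≤ 2 ^ (n - 2) := Nat.one_le_two_pow
      push_cast [this]
      simp [mu])

theorem hom_ga (hn : 4 ≤ n) : hom n hn (ga n) = pa n := by
  simp [hom, ga]

theorem hom_gb (hn : 4 ≤ n) : hom n hn (gb n) = pb n hn := by
  simp [hom, gb]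

theorem ga_zpow_eq_one (hn : 4 ≤ n) (i : ℤ) (h : ga n ^ i = 1) : ((2 ^ (n - 1) : ℕ) : ℤ) ∣ i := by
  have h1 := congrArg (hom n hn) h
  rw [map_zpow, hom_ga, map_one] at h1
  have h2 := congrArg (fun p => p 0) h1
  simp only [pa_zpow, Equiv.Perm.one_apply, zero_add] at h2
  exact (ZMod.intCast_zmod_eq_zero_iff_dvd _ _).1 h2

theorem gb_ne (hn : 4 ≤ n) (i : ℤ) : gb n ≠ ga n ^ i := by
  intro h
  have h1 := congrArg (hom n hn) h
  rw [map_zpow, hom_ga, hom_gb] at h1
  have h2 : (mu n * 0 : ZMod (2 ^ (n - 1))) = 0 + i := by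
    rw [← pa_zpow]
    exact congrArg (fun p => p 0) h1
  have h3 : (mu n * 1 : ZMod (2 ^ (n - 1))) = 1 + i := by
    rw [← pa_zpow]
    exact congrArg (fun p => p 1) h1
  rw [mul_zero, zero_add] at h2
  rw [← h2, mul_one, add_zero, mu] at h3
  have h4 : ((2 ^ (n - 2) - 2 : ℕ) : ZMod (2 ^ (n - 1))) = 0 := by
    have : 2 ≤ 2 ^ (n - 2) := by
      calc 2 = 2 ^ 1 := rfl
        _ ≤ 2 ^ (n - 2) := Nat.pow_le_pow_right (by norm_num) (by omega)
    push_cast [this]
    linear_combination h3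
  rw [ZMod.natCast_eq_zero_iff] at h4
  have h5 : 2 ^ (n - 1) = 2 * 2 ^ (n - 2) := by
    rw [← pow_succ']; congr 1; omega
  have h6 : 4 ≤ 2 ^ (n - 2) := by
    calc 4 = 2 ^ 2 := rfl
      _ ≤ 2 ^ (n - 2) := Nat.pow_le_pow_right (by norm_num) (by omega)
  have h7 := Nat.le_of_dvd (by omega) h4
  omega

end facts

/-- Every semidihedral group `SD_{2^n}`, `n ≥ 4`, has order `2^n` and is harmonious. -/
theorem main (n : ℕ) (hn : 4 ≤ n) : Nat.card (SemiDih n) = 2 ^ n ∧ Harmonious (SemiDih n) := by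
  have hN : 2 ^ n = 2 * 2 ^ (n - 1) := by rw [← pow_succ']; congr 1; omega
  rw [hN]
  have L : Listing (2 ^ (n - 1)) (2 ^ (n - 2)) := by
    by_cases h4 : n = 4
    · subst h4; exact listing8
    · have e1 : 2 ^ (n - 1) = 16 * 2 ^ (n - 5) := by
        rw [show (16 : ℕ) = 2 ^ 4 by norm_num, ← pow_add]; congr 1; omega
      have e2 : 2 ^ (n - 2) = 8 * 2 ^ (n - 5) := by
        rw [show (8 : ℕ) = 2 ^ 3 by norm_num, ← pow_add]; congr 1; omega
      rw [e1, e2]
      exact listing16 _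
  exact harmonious_of_listing (a := ga n) (b := gb n) (by positivity) (ga_pow n)
    (ga_zpow_eq_one n hn) (gb_sq n) (conj_ga n) Nat.one_le_two_pow (gb_ne n hn) (closure_gen n) L

end Pool.Agent.X239.SD
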