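import Pool.Agent.X239.SD.Group

/-! MP_3abf0f_al: the explicit listings. -/

namespace Pool.Agent.X239.SD

/-! ### `N = 16 v`, `h = 8 v` (write `u = 2 v`) -/

/-- exponents of `a` -/
def I16 (v : ℕ) (k : ℕ) : ℤ :=
  if k % 8 = 0 then 10 * v - 2 * (k / 8 : ℕ) else if k % 8 = 1 then 2 * v - 2 * (k / 8 : ℕ)
  else if k % 8 = 2 then 2 * v + (k / 8 : ℕ) else if k % 8 = 3 then 10 * v - 1 - (k / 8 : ℕ)
  else if k % 8 = 4 then 6 * v - 1 - 2 * (k / 8 : ℕ)
  else if k % 8 = 5 then 14 * v - 1 - 2 * (k / 8 : ℕ)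
  else if k % 8 = 6 then 14 * v + (k / 8 : ℕ) else 14 * v - 1 - (k / 8 : ℕ)

/-- exponents of `b` -/
def E16 (k : ℕ) : Bool := decide (k % 4 = 2 ∨ k % 4 = 3)

/-- exponents of `a` in the products -/
def J16 (v : ℕ) (k : ℕ) : ℤ :=
  if k % 8 = 0 then 12 * v - 4 * (k / 8 : ℕ) else if k % 8 = 1 then 4 * v - (k / 8 : ℕ)
  else if k % 8 = 2 then (if k / 8 % 2 = 0 then 1 + 2 * (k / 8 : ℕ) else 1 + 2 * (k / 8 : ℕ) + 8 * v)
  else if k % 8 = 3 then 12 * v + (k / 8 : ℕ)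
  else if k % 8 = 4 then 4 * v - 2 - 4 * (k / 8 : ℕ)
  else if k % 8 = 5 then 12 * v - 1 - (k / 8 : ℕ)
  else if k % 8 = 6 then (if k / 8 % 2 = 0 then 1 + 2 * (k / 8 : ℕ) + 8 * v else 1 + 2 * (k / 8 : ℕ))
  else (if k + 1 = 32 * v then 0 else 4 * v + 1 + (k / 8 : ℕ))

/-- exponents of `b` in the products -/
def F16 (k : ℕ) : Bool := decide (k % 2 = 1)

theorem I16_spec (v k : ℕ) : ∃ j : ℕ,
    (k = 8 * j ∧ I16 v k = 10 * v - 2 * j ∧ E16 k = false) ∨
    (k = 8 * j + 1 ∧ I16 v k = 2 * v - 2 * j ∧ E16 k = false) ∨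
    (k = 8 * j + 2 ∧ I16 v k = 2 * v + j ∧ E16 k = true) ∨
    (k = 8 * j + 3 ∧ I16 v k = 10 * v - 1 - j ∧ E16 k = true) ∨
    (k = 8 * j + 4 ∧ I16 v k = 6 * v - 1 - 2 * j ∧ E16 k = false) ∨
    (k = 8 * j + 5 ∧ I16 v k = 14 * v - 1 - 2 * j ∧ E16 k = false) ∨
    (k = 8 * j + 6 ∧ I16 v k = 14 * v + j ∧ E16 k = true) ∨
    (k = 8 * j + 7 ∧ I16 v k = 14 * v - 1 - j ∧ E16 k = true) := by
  refine ⟨k / 8, ?_⟩
  have h8 : k % 8 < 8 := Nat.mod_lt _ (by norm_num)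
  have hdm := Nat.div_add_mod k 8
  interval_cases h : k % 8
  · left; exact ⟨by omega, by simp [I16, h], by simp [E16]; omega⟩
  · right; left; exact ⟨by omega, by simp [I16, h], by simp [E16]; omega⟩
  · right; right; left; exact ⟨by omega, by simp [I16, h], by simp [E16]; omega⟩
  · right; right; right; left; exact ⟨by omega, by simp [I16, h], by simp [E16]; omega⟩
  · right; right; right; right; left; exact ⟨by omega, by simp [I16, h], by simp [E16]; omega⟩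
  · right; right; right; right; right; left
    exact ⟨by omega, by simp [I16, h], by simp [E16]; omega⟩
  · right; right; right; right; right; right; left
    exact ⟨by omega, by simp [I16, h], by simp [E16]; omega⟩
  · right; right; right; right; right; right; right
    exact ⟨by omega, by simp [I16, h], by simp [E16]; omega⟩

theorem small_dvd (v : ℕ) (X : ℤ) (h : ((16 * v : ℕ) : ℤ) ∣ X) (h1 : -(32 * (v : ℤ)) < X)
    (h2 : X < 32 * v) : X = -(16 * v) ∨ X = 0 ∨ X = 16 * v := by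
  obtain ⟨q, rfl⟩ := h
  push_cast at h1 h2 ⊢
  rcases Nat.eq_zero_or_pos v with h0 | h0
  · subst h0; simp
  have hq1 : q < 2 := by
    by_contra hc
    push Not at hc
    nlinarith
  have hq2 : -2 < q := by
    by_contra hc
    push Not at hc
    nlinarith
  interval_cases q <;> omega

theorem inj16 (v k l : ℕ) (hk : k < 32 * v) (hl : l < 32 * v) (hE : E16 k = E16 l)
    (h : ((16 * v : ℕ) : ℤ) ∣ I16 v k - I16 v l) : k = l := by
  obtain ⟨s, hs⟩ := I16_spec v k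
  obtain ⟨t, ht⟩ := I16_spec v l
  rcases hs with hs | hs | hs | hs | hs | hs | hs | hs <;>
  rcases ht with ht | ht | ht | ht | ht | ht | ht | ht <;>
  · obtain ⟨h1, h2, h3⟩ := hs
    obtain ⟨g1, g2, g3⟩ := ht
    rw [h3, g3] at hE
    first
      | (exfalso; exact Bool.noConfusion hE)
      | (rw [h2, g2] at h
         rcases small_dvd v _ h (by omega) (by omega) with h4 | h4 | h4 <;> omega)

theorem J16_spec (v k : ℕ) (hk : k < 32 * v) : ∃ j : ℕ,
    (k = 8 * j ∧ J16 v k = 12 * v - 4 * j ∧ F16 k = false) ∨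
    (k = 8 * j + 1 ∧ J16 v k = 4 * v - j ∧ F16 k = true) ∨
    (k = 8 * j + 2 ∧ j % 2 = 0 ∧ J16 v k = 1 + 2 * j ∧ F16 k = false) ∨
    (k = 8 * j + 2 ∧ j % 2 = 1 ∧ J16 v k = 1 + 2 * j + 8 * v ∧ F16 k = false) ∨
    (k = 8 * j + 3 ∧ J16 v k = 12 * v + j ∧ F16 k = true) ∨
    (k = 8 * j + 4 ∧ J16 v k = 4 * v - 2 - 4 * j ∧ F16 k = false) ∨
    (k = 8 * j + 5 ∧ J16 v k = 12 * v - 1 - j ∧ F16 k = true) ∨
    (k = 8 * j + 6 ∧ j % 2 = 0 ∧ J16 v k = 1 + 2 * j + 8 * v ∧ F16 k = false) ∨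
    (k = 8 * j + 6 ∧ j % 2 = 1 ∧ J16 v k = 1 + 2 * j ∧ F16 k = false) ∨
    (k = 8 * j + 7 ∧ k + 1 ≠ 32 * v ∧ J16 v k = 4 * v + 1 + j ∧ F16 k = true) ∨
    (k = 8 * j + 7 ∧ k + 1 = 32 * v ∧ J16 v k = 0 ∧ F16 k = true) := by
  refine ⟨k / 8, ?_⟩
  have h8 : k % 8 < 8 := Nat.mod_lt _ (by norm_num)
  have hdm := Nat.div_add_mod k 8
  interval_cases h : k % 8
  · left; exact ⟨by omega, by simp [J16, h], by simp [F16]; omega⟩
  · right; left; exact ⟨by omega, by simp [J16, h], by simp [F16]; omega⟩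
  · rcases Nat.mod_two_eq_zero_or_one (k / 8) with h2 | h2
    · right; right; left; exact ⟨by omega, h2, by simp [J16, h, h2], by simp [F16]; omega⟩
    · right; right; right; left; exact ⟨by omega, h2, by simp [J16, h, h2], by simp [F16]; omega⟩
  · right; right; right; right; left; exact ⟨by omega, by simp [J16, h], by simp [F16]; omega⟩
  · right; right; right; right; right; left
    exact ⟨by omega, by simp [J16, h], by simp [F16]; omega⟩
  · right; right; right; right; right; right; left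
    exact ⟨by omega, by simp [J16, h], by simp [F16]; omega⟩
  · rcases Nat.mod_two_eq_zero_or_one (k / 8) with h2 | h2
    · right; right; right; right; right; right; right; left
      exact ⟨by omega, h2, by simp [J16, h, h2], by simp [F16]; omega⟩
    · right; right; right; right; right; right; right; right; left
      exact ⟨by omega, h2, by simp [J16, h, h2], by simp [F16]; omega⟩
  · by_cases h3 : k + 1 = 32 * v
    · right; right; right; right; right; right; right; right; right; right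
      exact ⟨by omega, h3, by simp [J16, h, h3], by simp [F16]; omega⟩
    · right; right; right; right; right; right; right; right; right; left
      exact ⟨by omega, h3, by simp [J16, h, h3], by simp [F16]; omega⟩

theorem injJ16 (v k l : ℕ) (hk : k < 32 * v) (hl : l < 32 * v) (hE : F16 k = F16 l)
    (h : ((16 * v : ℕ) : ℤ) ∣ J16 v k - J16 v l) : k = l := by
  obtain ⟨s, hs⟩ := J16_spec v k hk
  obtain ⟨t, ht⟩ := J16_spec v l hl
  rcases hs with ⟨h1, h2, h3⟩ | ⟨h1, h2, h3⟩ | ⟨h1, h0, h2, h3⟩ | ⟨h1, h0, h2, h3⟩ |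
    ⟨h1, h2, h3⟩ | ⟨h1, h2, h3⟩ | ⟨h1, h2, h3⟩ | ⟨h1, h0, h2, h3⟩ | ⟨h1, h0, h2, h3⟩ |
    ⟨h1, h0, h2, h3⟩ | ⟨h1, h0, h2, h3⟩ <;>
  rcases ht with ⟨g1, g2, g3⟩ | ⟨g1, g2, g3⟩ | ⟨g1, g0, g2, g3⟩ | ⟨g1, g0, g2, g3⟩ |
    ⟨g1, g2, g3⟩ | ⟨g1, g2, g3⟩ | ⟨g1, g2, g3⟩ | ⟨g1, g0, g2, g3⟩ | ⟨g1, g0, g2, g3⟩ |
    ⟨g1, g0, g2, g3⟩ | ⟨g1, g0, g2, g3⟩ <;>
  · rw [h3, g3] at hE
    first
      | (exfalso; exact Bool.noConfusion hE)
      | (rw [h2, g2] at h
         rcases small_dvd v _ h (by omega) (by omega) with h4 | h4 | h4 <;> omega)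

theorem I16_0 (v j : ℕ) : I16 v (8 * j) = 10 * v - 2 * j := by
  have h1 : 8 * j % 8 = 0 := by omega
  have h2 : 8 * j / 8 = j := by omega
  simp [I16]
theorem I16_1 (v j : ℕ) : I16 v (8 * j + 1) = 2 * v - 2 * j := by
  have h1 : (8 * j + 1) % 8 = 1 := by omega
  have h2 : (8 * j + 1) / 8 = j := by omega
  simp [I16, h1, h2]
theorem I16_2 (v j : ℕ) : I16 v (8 * j + 2) = 2 * v + j := by
  have h1 : (8 * j + 2) % 8 = 2 := by omega
  have h2 : (8 * j + 2) / 8 = j := by omega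
  simp [I16, h1, h2]
theorem I16_3 (v j : ℕ) : I16 v (8 * j + 3) = 10 * v - 1 - j := by
  have h1 : (8 * j + 3) % 8 = 3 := by omega
  have h2 : (8 * j + 3) / 8 = j := by omega
  simp [I16, h1, h2]
theorem I16_4 (v j : ℕ) : I16 v (8 * j + 4) = 6 * v - 1 - 2 * j := by
  have h1 : (8 * j + 4) % 8 = 4 := by omega
  have h2 : (8 * j + 4) / 8 = j := by omega
  simp [I16, h1, h2]
theorem I16_5 (v j : ℕ) : I16 v (8 * j + 5) = 14 * v - 1 - 2 * j := by
  have h1 : (8 * j + 5) % 8 = 5 := by omega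
  have h2 : (8 * j + 5) / 8 = j := by omega
  simp [I16, h1, h2]
theorem I16_6 (v j : ℕ) : I16 v (8 * j + 6) = 14 * v + j := by
  have h1 : (8 * j + 6) % 8 = 6 := by omega
  have h2 : (8 * j + 6) / 8 = j := by omega
  simp [I16, h1, h2]
theorem I16_7 (v j : ℕ) : I16 v (8 * j + 7) = 14 * v - 1 - j := by
  have h1 : (8 * j + 7) % 8 = 7 := by omega
  have h2 : (8 * j + 7) / 8 = j := by omega
  simp [I16, h1, h2]

theorem prodJ16 (v k : ℕ) (hk : k < 32 * v) : ((16 * v : ℕ) : ℤ) ∣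
    (I16 v k + (if E16 k then (((8 * v : ℕ) : ℤ) - 1) * I16 v ((k + 1) % (32 * v))
      else I16 v ((k + 1) % (32 * v)))) - J16 v k := by
  have hmod : k + 1 ≠ 32 * v → (k + 1) % (32 * v) = k + 1 := fun h =>
    Nat.mod_eq_of_lt (by omega)
  obtain ⟨j, hs⟩ := J16_spec v k hk
  push_cast
  rcases hs with ⟨h1, h2, -⟩ | ⟨h1, h2, -⟩ | ⟨h1, h0, h2, -⟩ | ⟨h1, h0, h2, -⟩ |
    ⟨h1, h2, -⟩ | ⟨h1, h2, -⟩ | ⟨h1, h2, -⟩ | ⟨h1, h0, h2, -⟩ | ⟨h1, h0, h2, -⟩ |
    ⟨h1, h0, h2, -⟩ | ⟨h1, h0, h2, -⟩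
  · have hE : E16 k = false := by simp [E16]; omega
    rw [hmod (by omega), h2, hE, h1, I16_0, I16_1]
    exact ⟨0, by simp; ring⟩
  · have hE : E16 k = false := by simp [E16]; omega
    rw [hmod (by omega), h2, hE, h1, show 8 * j + 1 + 1 = 8 * j + 2 by ring, I16_1, I16_2]
    exact ⟨0, by simp; ring⟩
  · have hE : E16 k = true := by simp [E16]; omega
    obtain ⟨l, hl⟩ : ∃ l : ℤ, (j : ℤ) = 2 * l := ⟨(j : ℤ) / 2, by omega⟩
    rw [hmod (by omega), h2, hE, h1, show 8 * j + 2 + 1 = 8 * j + 3 by ring, I16_2, I16_3]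
    refine ⟨5 * v - 1 - l, ?_⟩
    rw [hl]; simp; ring
  · have hE : E16 k = true := by simp [E16]; omega
    obtain ⟨l, hl⟩ : ∃ l : ℤ, (j : ℤ) = 2 * l + 1 := ⟨(j : ℤ) / 2, by omega⟩
    rw [hmod (by omega), h2, hE, h1, show 8 * j + 2 + 1 = 8 * j + 3 by ring, I16_2, I16_3]
    refine ⟨5 * v - 2 - l, ?_⟩
    rw [hl]; simp; ring
  · have hE : E16 k = true := by simp [E16]; omega
    rw [hmod (by omega), h2, hE, h1, show 8 * j + 3 + 1 = 8 * j + 4 by ring, I16_3, I16_4]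
    refine ⟨3 * v - 1 - j, ?_⟩
    simp; ring
  · have hE : E16 k = false := by simp [E16]; omega
    rw [hmod (by omega), h2, hE, h1, show 8 * j + 4 + 1 = 8 * j + 5 by ring, I16_4, I16_5]
    exact ⟨1, by simp; ring⟩
  · have hE : E16 k = false := by simp [E16]; omega
    rw [hmod (by omega), h2, hE, h1, show 8 * j + 5 + 1 = 8 * j + 6 by ring, I16_5, I16_6]
    exact ⟨1, by simp; ring⟩
  · have hE : E16 k = true := by simp [E16]; omega
    obtain ⟨l, hl⟩ : ∃ l : ℤ, (j : ℤ) = 2 * l := ⟨(j : ℤ) / 2, by omega⟩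
    rw [hmod (by omega), h2, hE, h1, show 8 * j + 6 + 1 = 8 * j + 7 by ring, I16_6, I16_7]
    refine ⟨7 * v - 1 - l, ?_⟩
    rw [hl]; simp; ring
  · have hE : E16 k = true := by simp [E16]; omega
    obtain ⟨l, hl⟩ : ∃ l : ℤ, (j : ℤ) = 2 * l + 1 := ⟨(j : ℤ) / 2, by omega⟩
    rw [hmod (by omega), h2, hE, h1, show 8 * j + 6 + 1 = 8 * j + 7 by ring, I16_6, I16_7]
    refine ⟨7 * v - 1 - l, ?_⟩
    rw [hl]; simp; ring
  · have hE : E16 k = true := by simp [E16]; omega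
    rw [hmod h0, h2, hE, h1, show 8 * j + 7 + 1 = 8 * (j + 1) by ring, I16_7, I16_0]
    refine ⟨5 * v - 1 - j, ?_⟩
    push_cast
    simp; ring
  · have hE : E16 k = true := by simp [E16]; omega
    have hj : (j : ℤ) = 4 * v - 1 := by omega
    rw [h0, Nat.mod_self, h2, hE, h1, I16_7]
    have h00 : I16 v 0 = 10 * v := by simpa using I16_0 v 0
    rw [h00, hj]
    refine ⟨5 * v, ?_⟩
    simp; ring

/-- The listing for `N = 16 v`. -/
def listing16 (v : ℕ) : Listing (16 * v) (8 * v) where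
  I := I16 v
  E := E16
  J := J16 v
  F := F16
  inj k l hk hl := inj16 v k l (by omega) (by omega)
  prodF k hk := by
    have h1 : (k + 1) % (2 * (16 * v)) % 4 = (k + 1) % 4 := by
      apply Nat.mod_mod_of_dvd
      exact ⟨8 * v, by ring⟩
    simp only [F16, E16, h1]
    have h4 : k % 4 < 4 := Nat.mod_lt _ (by norm_num)
    have h5 : (k + 1) % 4 = (k % 4 + 1) % 4 := by omega
    have h6 : k % 2 = k % 4 % 2 := by omega
    rw [h5, h6]
    generalize k % 4 = c at *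
    interval_cases c <;> simp
  prodJ k hk := by
    have := prodJ16 v k (by omega)
    rw [show 2 * (16 * v) = 32 * v by ring]
    exact this
  injJ k l hk hl := injJ16 v k l (by omega) (by omega)

end Pool.Agent.X239.SD
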